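import Pool.Agent.N612.MS.Main

/-!
# The Mansfield-Solovay property fails for ordinal definable sets after adding one Cohen real

The ground model is the universe of Lean (for the problem it is `L`). The theorem says that, in the
Cohen extension, the set `X` of the reals `x` that are Cohen over the ground model and from which
every real can be read off by a real of the ground model is nonempty, is disjoint from the ground
model, and has no perfect subset.

Suppose that a condition forces that the tree `T` is perfect and that its branches are in `X`. Then
all Borel selectors of branches are locally injective on comeager sets, and the preimages of
meager sets are meager. A generic selector is constructed, for which below every condition there are
two incompatible conditions such that the selector maps the first one onto a comeager subset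
of a basic open set, and the second one into the same basic open set: a contradiction.

Parts of the formal proof were written by helper7, helper43, helper49, helper51, helper97,
helper135, helper249, helper263, helper288, helper395, helper400, helper492, helper519, helper678,
helper832 and helper854.
-/

set_option autoImplicit false

namespace Pool.Agent.Results.MP_f34575_lc.NoPerfectSubset

open Pool.Agent.N612.MS

/-- Every condition of Cohen forcing forces: there is a real that is Cohen over the ground model
and from which every real can be read off by a real of the ground model; no such real is in the
ground model; there is no perfect set of such reals. -/
theorem result : ∀ (p : List Bool) (v : ℕ → Nm), Forces p Fm.sentence v :=
  main

end Pool.Agent.Results.MP_f34575_lc.NoPerfectSubset
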